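import Pool.Agent.FF891.Concl

/-!
# MP_891ecf_lc.Branching: problems whose solutions differ on branching sets

If any two solutions of an LCL problem on a free group which differ at `1` differ near a uniformly branching set
containing a point near `1`, then every factor of iid solution is almost surely constant, so the problem is in `FIID`
if and only if it is in `FFIID`, if and only if it has a constant solution. For edge labelling problems whose vertex
configurations pairwise differ in at least two directions it is enough that there is no thin pair of solutions.
The proof combines the entropy inequality for factors of iid (small random sets have average degree close to at most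
two), proved here by revealing the labels in a random order, with an interpolation between two independent labellings.
-/

set_option autoImplicit false

open MeasureTheory Pool.Agent.FF891

namespace Pool.Agent.Results.MP_891ecf_lc.Branching

theorem result (n : ℕ) (Q : LCL n) (M : Type) [Finite M] (π : Q.L → M)
    (h : (∃ k : ℕ, Branching Q π k) ∨
      ∃ (E : Type) (_ : Finite E) (C : Set (Fin n × Bool → E)),
        Q = edgeLCL n E C ∧ Dist2 C ∧ ¬ ∃ f g, ThinPair C f g) :
    (∀ Φ : X n → FreeGroup (Fin n) → Q.L, IsFactor Q Φ →
      ∃ m : M, ∀ᵐ x ∂(mu n), ∀ δ : FreeGroup (Fin n), π (Φ x δ) = m) ∧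
    (FIID Q ↔ ∃ m, FIID (Q.restr π m)) ∧
    (FFIID Q ↔ ∃ m, FFIID (Q.restr π m)) ∧
    (Function.Injective π →
      (FIID Q ↔ FFIID Q) ∧ (FIID Q ↔ ∃ l : Q.L, Q.Solves fun _ => l)) := by
  have H : AllConst Q π := by
    rcases h with ⟨k, hk⟩ | ⟨E, hE, C, rfl, hC, hthin⟩
    · exact allConst_of_branching hk
    · exact allConst_edge hC hthin π
  exact ⟨H, H.fiid_iff, H.ffiid_iff, H.const_iff⟩

end Pool.Agent.Results.MP_891ecf_lc.Branching
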