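import Pool.Agent.FF891.Odd

/-!
# MP_891ecf_lc: the expected coding volume of rigid problems is infinite

Let `Q` be an LCL problem on the free group on `n` generators which has no constant solution and is
rigid (two solutions which differ at finitely many elements only are equal), for example the problem
of finding a spanning subgraph with all degrees in a set of odd numbers (such as perfect matchings).
If `N` is any measurable coding radius of a factor of iid solution of `Q`, then the expected number
of elements of the ball of radius `N` is infinite, and the probability of `ρ ≤ N` is at least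
`c` divided by the size of the ball of radius `ρ`.
-/

set_option autoImplicit false

open MeasureTheory
open scoped ENNReal

namespace Pool.Agent.Results.MP_891ecf_lc.CodingVolume

open Pool.Agent.FF891

theorem result (n : ℕ) (Q : LCL n)
    (hQ : (Rigid Q ∧ ∀ l : Q.L, ¬ Q.Solves (fun _ => l)) ∨
      ∃ K : Set ℕ, (∀ k ∈ K, Odd k) ∧ Q = degLCL n K)
    (Φ : X n → FreeGroup (Fin n) → Q.L) (hΦ : IsFactor Q Φ) (N : X n → ℕ) (hN : Measurable N)
    (hc : ∀ᵐ x ∂(mu n), Codes Φ x (N x)) :
    ∫⁻ x, (bc n (N x) : ℝ≥0∞) ∂(mu n) = ⊤ ∧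
      ∃ c : ℝ, 0 < c ∧ ∀ ρ : ℕ, c ≤ (mu n).real {x | ρ ≤ N x} * (bc n ρ : ℝ) := by
  have h : Rigid Q ∧ ∀ l : Q.L, ¬ Q.Solves (fun _ => l) := by
    rcases hQ with h | ⟨K, hK, rfl⟩
    · exact h
    · exact ⟨rigid_odd hK, no_const_odd hK⟩
  exact ⟨vol_top h.1 h.2 hΦ hN hc, vol_tail h.1 h.2 hΦ hN hc⟩

end Pool.Agent.Results.MP_891ecf_lc.CodingVolume
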