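import Pool.Agent.FF891.Deg

/-!
# MP_891ecf_lc: subgraphs of the Cayley graph with degrees in a set

If `K` contains an even number `k ≤ 2 n`, or two numbers `k`, `k + 2 ≤ 2 n`, then the LCL problem of
finding a spanning subgraph of the Cayley graph of the free group on `n` generators with all degrees
in `K` has a finitary factor of iid solution.
-/

set_option autoImplicit false

namespace Pool.Agent.Results.MP_891ecf_lc.DegreeSets

open Pool.Agent.FF891

theorem result (n : ℕ) (K : Set ℕ)
    (h : (∃ k ∈ K, Even k ∧ k ≤ 2 * n) ∨ ∃ k ∈ K, k + 2 ∈ K ∧ k + 2 ≤ 2 * n) :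
    FFIID (degLCL n K) := by
  rcases h with ⟨k, hk, ⟨m, rfl⟩, h2⟩ | ⟨k, hk, hk2, h2⟩
  · exact deg_even (m := m) (by rwa [two_mul]) (by omega)
  · rcases Nat.even_or_odd k with ⟨m, rfl⟩ | ⟨m, rfl⟩
    · exact deg_even (m := m) (by rwa [two_mul]) (by omega)
    · exact deg_odd (m := m) hk hk2 (by omega)

end Pool.Agent.Results.MP_891ecf_lc.DegreeSets
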