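import Pool.Agent.FF891.Sub
import Pool.Agent.FF891.Norm
import Pool.Agent.FF891.Emb

/-!
# MP_891ecf_lc: the question does not depend on the rank

For every `m ≥ 2`, FFIID = FIID holds for the free group of rank `m` if and only if it holds for the edge labelling
problems with a constraint at the vertices on the free group of rank two. In particular FFIID = FIID for one
free group of rank at least two implies it for all of them.
-/

set_option autoImplicit false

namespace Pool.Agent.Results.MP_891ecf_lc.OneGroup

open Pool.Agent.FF891

theorem result (m : ℕ) (hm : 2 ≤ m) :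
    (∀ Q : LCL m, FIID Q → FFIID Q) ↔
      ∀ (E : Type) [Finite E] (C : Set (Fin 2 × Bool → E)),
        FIID (edgeLCL 2 E C) → FFIID (edgeLCL 2 E C) := by
  constructor
  · intro h E _ C hE
    obtain ⟨ι, hι⟩ := exists_emb 2 m hm
    exact transfer hι h _ hE
  · intro h
    have h2 : ∀ Q : LCL 2, FIID Q → FFIID Q := fun Q hQ =>
      ffiid_nQ (by norm_num) Q (h _ _ (fiid_nQ Q hQ))
    obtain ⟨ι, hι⟩ := exists_emb m 2 le_rfl
    exact transfer hι h2

end Pool.Agent.Results.MP_891ecf_lc.OneGroup
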